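import Mathlib
import Pool.Agent.Q202.HX.CC

set_option autoImplicit false

/-!
# Countably compact functional extensions exist under CH

Assume CH. For every sequence of Hausdorff ultrafilters `s n` on `ℕ` a nonprincipal ultrafilter `V`
can be constructed by diagonalization such that the sum `W = V-∑ s n` is again Hausdorff: for any
two sequences of functions `f n`, `g n` with `f n (s n) ≠ g n (s n)` on an infinite set `A` there are
an infinite `B ⊆ A` and `C` with `C ∈ f n (s n)`, `C ∉ g n (s n)` for `n ∈ B`.  All limits
`V-lim f n (U)` are images of `W`, if `U` is below almost all `s n`.  A maximal chain with respect to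
this relation between `W` and `U` generates a countably compact extension of `ℕ`.
-/

namespace Pool.Agent.Results.MP_77d395_lc.ExistsUnderCH

open Cardinal

open Classical in
/-- The function `χ_{φψ}` with value `one` where `φ` and `ψ` agree and `zero` elsewhere. -/
noncomputable def chi {S : Type} (zero one : S) (φ ψ : S → S) : S → S :=
  fun x => if φ x = ψ x then one else zero

open Classical in
/-- The characteristic function of a subset. -/
noncomputable def char {X : Type} (zero one : X) (A : Set X) : X → X :=
  fun x => if x ∈ A then one else zero

/-- A functional extension of a set `X` with two different elements `zero` and `one`: a proper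
extension `Carrier` of `X` (`emb` is the inclusion map) with extensions `star f` of all functions
`f : X → X`. -/
structure FunctionalExtension (X : Type) (zero one : X) where
  /-- the extended set -/
  Carrier : Type
  /-- the inclusion of `X` -/
  emb : X → Carrier
  emb_injective : Function.Injective emb
  proper : ∃ ξ : Carrier, ∀ x, emb x ≠ ξ
  zero_ne_one : zero ≠ one
  /-- the extension of a function -/
  star : (X → X) → Carrier → Carrier
  star_emb : ∀ f x, star f (emb x) = emb (f x)
  comp : ∀ f g : X → X, star (g ∘ f) = star g ∘ star f
  equ : ∀ f g : X → X, star (chi zero one f g) = chi (emb zero) (emb one) (star f) (star g)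
  dir : ∀ ξ η : Carrier, ∃ (p₁ p₂ : X → X) (ζ : Carrier), star p₁ ζ = ξ ∧ star p₂ ζ = η

variable {X : Type} {zero one : X}

/-- The extension of a subset of `X`. -/
def FunctionalExtension.starSet (E : FunctionalExtension X zero one) (A : Set X) :
    Set E.Carrier :=
  {ξ | E.star (char zero one A) ξ = E.emb one}

/-- The S-topology: the topology generated by the extensions of the subsets of `X`. -/
@[reducible] def FunctionalExtension.sTopology (E : FunctionalExtension X zero one) :
    TopologicalSpace E.Carrier :=
  TopologicalSpace.generateFrom (Set.range E.starSet)

/-- A topological space is countably compact if it is Hausdorff and every countable open cover has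
a finite subcover. -/
def IsCountablyCompactSpace (S : Type) (t : TopologicalSpace S) : Prop :=
  @T2Space S t ∧ ∀ O : ℕ → Set S, (∀ n, @IsOpen S t (O n)) → ⋃ n, O n = Set.univ →
    ∃ F : Finset ℕ, ⋃ n ∈ F, O n = Set.univ

/-- Countably compact functional extensions. -/
def FunctionalExtension.CountablyCompact (E : FunctionalExtension X zero one) : Prop :=
  IsCountablyCompactSpace E.Carrier E.sTopology

/-- **Answer to Q1 (yes).**  Under the continuum hypothesis `ℕ` has a countably compact functional
extension. -/
theorem result : (𝔠 : Cardinal.{0}) = ℵ₁ →
    ∃ E : FunctionalExtension ℕ 0 1, E.CountablyCompact := by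
  classical
  intro hCH
  obtain ⟨H, hpure, hnp, hmap, hHaus, hdir, hlim⟩ := Q202.HX.exists_family hCH
  have hmem : ∀ (U : Ultrafilter ℕ) (A : Set ℕ), U.map (char 0 1 A) = pure 1 ↔ A ∈ U := by
    intro U A
    constructor
    · intro h
      have h1 : {1} ∈ U.map (char 0 1 A) := by
        rw [h]
        exact Set.mem_singleton 1
      rw [Ultrafilter.mem_map] at h1
      refine Filter.mem_of_superset h1 ?_
      intro x hx
      by_contra hxA
      have : char 0 1 A x = 1 := hx
      unfold char at this
      rw [if_neg hxA] at this
      exact absurd this (by norm_num)
    · intro h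
      apply Q202.HX.eq_pure
      rw [Ultrafilter.mem_map]
      refine Filter.mem_of_superset h ?_
      intro x hx
      change char 0 1 A x = 1
      unfold char
      rw [if_pos hx]
  let E : FunctionalExtension ℕ 0 1 :=
    { Carrier := H
      emb := fun n => ⟨pure n, hpure n⟩
      emb_injective := fun m n h => Ultrafilter.pure_injective (congrArg Subtype.val h)
      proper := by
        obtain ⟨U, hU, hU2⟩ := hnp
        refine ⟨⟨U, hU⟩, ?_⟩
        intro n hn
        have h1 : pure n = U := congrArg Subtype.val hn
        have h2 : ({n}ᶜ : Set ℕ) ∈ U := hU2 (Set.finite_singleton n).compl_mem_cofinite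
        rw [← h1] at h2
        exact h2 rfl
      zero_ne_one := by norm_num
      star := fun f U => ⟨U.1.map f, hmap U.1 U.2 f⟩
      star_emb := by
        intro f n
        apply Subtype.ext
        exact Ultrafilter.map_pure f n
      comp := by
        intro f g
        funext U
        apply Subtype.ext
        exact (Ultrafilter.map_map U.1 f g).symm
      equ := by
        intro f g
        funext U
        by_cases h : U.1.map f = U.1.map g
        · have h1 : {n | f n = g n} ∈ U.1 := hHaus U.1 U.2 f g h
          unfold chi
          rw [if_pos (Subtype.ext h)]
          apply Subtype.ext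
          apply Q202.HX.eq_pure
          rw [Ultrafilter.mem_map]
          refine Filter.mem_of_superset h1 ?_
          intro n hn
          exact if_pos hn
        · have h1 : {n | f n = g n} ∉ U.1 := fun h' => h (Q202.HX.map_congr h')
          rw [← Ultrafilter.compl_mem_iff_notMem] at h1
          unfold chi
          rw [if_neg (fun h' => h (congrArg Subtype.val h'))]
          apply Subtype.ext
          apply Q202.HX.eq_pure
          rw [Ultrafilter.mem_map]
          refine Filter.mem_of_superset h1 ?_
          intro n hn
          exact if_neg hn
      dir := by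
        intro U V
        obtain ⟨W, hW, p, q, hp, hq⟩ := hdir U.1 U.2 V.1 V.2
        exact ⟨p, q, ⟨W, hW⟩, Subtype.ext hp, Subtype.ext hq⟩ }
  have htop : E.sTopology = instTopologicalSpaceSubtype := by
    unfold FunctionalExtension.sTopology
    have h1 : (instTopologicalSpaceSubtype : TopologicalSpace H) =
        TopologicalSpace.generateFrom (Set.preimage Subtype.val '' (ultrafilterBasis ℕ)) :=
      induced_generateFrom_eq
    rw [h1]
    congr 1
    ext s
    constructor
    · rintro ⟨A, rfl⟩
      refine ⟨_, ⟨A, rfl⟩, ?_⟩
      ext U
      change A ∈ U.1 ↔ E.star (char 0 1 A) U = E.emb 1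
      rw [← hmem]
      exact ⟨fun h => Subtype.ext h, fun h => congrArg Subtype.val h⟩
    · rintro ⟨_, ⟨A, rfl⟩, rfl⟩
      refine ⟨A, ?_⟩
      ext U
      change E.star (char 0 1 A) U = E.emb 1 ↔ A ∈ U.1
      rw [← hmem]
      exact ⟨fun h => congrArg Subtype.val h, fun h => Subtype.ext h⟩
  refine ⟨E, ?_⟩
  unfold FunctionalExtension.CountablyCompact
  rw [htop]
  refine ⟨(inferInstance : T2Space H), ?_⟩
  intro O hO hcov
  exact Q202.HX.cc H hlim O hO hcov

end Pool.Agent.Results.MP_77d395_lc.ExistsUnderCH
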